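import Mathlib

set_option autoImplicit false

namespace Pool.Agent.H.MP_c220a4_co

def out : Fin 6 → List (Fin 6) := ![[1, 3], [3, 4], [0, 3, 4, 5], [0, 1, 2, 4], [1, 2, 3, 5], [1, 4]]

def A (u v : Fin 6) : Bool := (out u).contains v

lemma loopless : ∀ v, A v v = false := by decide

lemma two : ∀ u v : Fin 6, u = v ∨ A u v = true ∨ (∃ w, A u w = true ∧ A w v = true) ∨
    ∃ w x, A u w = true ∧ A w x = true ∧ A x v = true := by decide +kernel

lemma strong (u v : Fin 6) : Relation.ReflTransGen (fun a b => A a b = true) u v := by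
  rcases two u v with rfl | h | ⟨w, h1, h2⟩ | ⟨w, x, h1, h2, h3⟩
  · exact .refl
  · exact .single h
  · exact .tail (.single h1) h2
  · exact .tail (.tail (.single h1) h2) h3

lemma c1 : ∀ a : Fin 6, A a a = true →
    [a].Nodup → 0 ∈ [a] → 5 ∈ [a] → False := by
  decide +kernel

lemma c2 : ∀ a : Fin 6, ∀ b : Fin 6, A a b = true → A b a = true →
    [a, b].Nodup → 0 ∈ [a, b] → 5 ∈ [a, b] → False := by
  decide +kernel

lemma c3 : ∀ a : Fin 6, ∀ b : Fin 6, A a b = true → ∀ c : Fin 6, A b c = true → A c a = true →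
    [a, b, c].Nodup → 0 ∈ [a, b, c] → 5 ∈ [a, b, c] → False := by
  decide +kernel

lemma c4 : ∀ a : Fin 6, ∀ b : Fin 6, A a b = true → ∀ c : Fin 6, A b c = true → ∀ d : Fin 6, A c d = true → A d a = true →
    [a, b, c, d].Nodup → 0 ∈ [a, b, c, d] → 5 ∈ [a, b, c, d] → False := by
  decide +kernel

lemma c5 : ∀ a : Fin 6, ∀ b : Fin 6, A a b = true → ∀ c : Fin 6, A b c = true → ∀ d : Fin 6, A c d = true → ∀ e : Fin 6, A d e = true → A e a = true →
    [a, b, c, d, e].Nodup → 0 ∈ [a, b, c, d, e] → 5 ∈ [a, b, c, d, e] → False := by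
  decide +kernel

lemma c6 : ∀ a : Fin 6, ∀ b : Fin 6, A a b = true → ∀ c : Fin 6, A b c = true → ∀ d : Fin 6, A c d = true → ∀ e : Fin 6, A d e = true → ∀ f : Fin 6, A e f = true → A f a = true →
    [a, b, c, d, e, f].Nodup → 0 ∈ [a, b, c, d, e, f] → 5 ∈ [a, b, c, d, e, f] → False := by
  decide +kernel

lemma no_cyc : ¬ ∃ (k : ℕ) (f : Fin k → Fin 6), Function.Injective f ∧
    (∀ j : Fin k, A (f j) (f (finRotate k j)) = true) ∧
    (0 : Fin 6) ∈ Set.range f ∧ (5 : Fin 6) ∈ Set.range f := by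
  rintro ⟨k, f, hf, ha, h0, h5⟩
  have hk : k ≤ 6 := by simpa using Fintype.card_le_of_injective f hf
  have hn : (List.ofFn f).Nodup := List.nodup_ofFn.2 hf
  have m0 : (0 : Fin 6) ∈ List.ofFn f := by simpa using h0
  have m5 : (5 : Fin 6) ∈ List.ofFn f := by simpa using h5
  interval_cases k
  · simp at m0
  · exact c1 (f 0) (ha 0) hn m0 m5
  · exact c2 (f 0) (f 1) (ha 0) (ha 1) hn m0 m5
  · exact c3 (f 0) (f 1) (ha 0) (f 2) (ha 1) (ha 2) hn m0 m5
  · exact c4 (f 0) (f 1) (ha 0) (f 2) (ha 1) (f 3) (ha 2) (ha 3) hn m0 m5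
  · exact c5 (f 0) (f 1) (ha 0) (f 2) (ha 1) (f 3) (ha 2) (f 4) (ha 3) (ha 4) hn m0 m5
  · exact c6 (f 0) (f 1) (ha 0) (f 2) (ha 1) (f 3) (ha 2) (f 4) (ha 3) (f 5) (ha 4) (ha 5) hn m0 m5

end Pool.Agent.H.MP_c220a4_co
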